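import Mathlib
import Pool.Agent.Helper97.RK.Stmts

/-! # Statements for `N_6(H) ≥ H ^ (1/4 - ε)` and `N_7(H) ≥ c H ^ (35/152)` (MP_798d7d_nt)

FAMILY K (rank six).  Line sections `l₁ x + l₂ y + l₃ z = 0` of the nodal plane quartic
`3 x² (y² - z²) + (y² - 4 z²) (y² - 49 z²)` (double plane `w² = G`): three parameters
`(u, v, w)` of weight 1, `A`, `B` of degrees 4 and 6.  Because of the node `w² ∣ 4 A³ + 27 B²`.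
MULTIPLICITY: given `(A, B)` there are `N^ε` possible `w`; given `w`, `(u, v)` is determined
(the Jacobian of `(A, B)` is a unit modulo 13 on the residue class, and `u, v > 0`).

FAMILY S (rank seven).  Line sections of Edge's quartic
`25 (x⁴ + y⁴ + z⁴) - 34 (x² y² + x² z² + y² z²)` (28 rational bitangents): parameters `(a, b, c)`.
MULTIPLICITY: at most `K N^(9/38)` parameters give the same `(A, B)`.  Fix `(A, B)`; modulo 13 the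
parameters are `(4, 7, 11)` and the curve `A = const, B = const` is there a 13-adic analytic curve
parametrised by `c`.  For 20 points with distinct `c` the determinant of the 20 monomials of degree
`≤ 3` is (Vandermonde of the `c`'s) times a 13-adic unit (checked by the residues), so it is not zero;
if all `c` are congruent modulo `13^k` it is divisible by `13^(190 k)`, but it is at most `K N^45`.
So each class of `c` modulo `13^k`, `13^k ~ N^(9/38)`, has at most 19 points.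
-/

set_option autoImplicit false

namespace Pool.Helper17.RS

open Pool.Agent.Helper97.RK (cur)
open Polynomial

/-- the modulus -/
def MM : ℤ := (Nat.factorial 1000 : ℤ)

def Cong (b y : Fin 3 → ℤ) : Prop := ∀ i, MM ∣ y i - b i
def Box (N : ℕ) : Finset (Fin 3 → ℕ) := Fintype.piFinset fun _ => Finset.range N
def yy (b : Fin 3 → ℤ) (t : Fin 3 → ℕ) : Fin 3 → ℤ := fun i => b i + MM * (t i : ℤ)

/-! ## General rows -/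

/-- the number of pairs in question (same set as in the frozen statement) -/
noncomputable def NR (r : ℕ) (H : ℝ) : ℕ := Set.ncard {p : ℤ × ℤ |
      4 * p.1 ^ 3 + 27 * p.2 ^ 2 ≠ 0 ∧
      (∀ q : ℕ, q.Prime → ¬ ((q : ℤ) ^ 4 ∣ p.1 ∧ (q : ℤ) ^ 6 ∣ p.2)) ∧
      (((max (4 * |p.1| ^ 3) (27 * p.2 ^ 2) : ℤ) : ℝ) ≤ H) ∧
      (r : Cardinal) ≤ Module.rank ℤ
        (WeierstrassCurve.toAffine
          (⟨0, 0, 0, (p.1 : ℚ), (p.2 : ℚ)⟩ : WeierstrassCurve ℚ)).Point}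

def RS (r : ℕ) (C : ℤ) (N : ℕ) : Set (ℤ × ℤ) :=
  {p | 4 * p.1 ^ 3 + 27 * p.2 ^ 2 ≠ 0 ∧
    (∀ q : ℕ, q.Prime → ¬ ((q : ℤ) ^ 4 ∣ p.1 ∧ (q : ℤ) ^ 6 ∣ p.2)) ∧
    |p.1| ≤ C * (N : ℤ) ^ 4 ∧ |p.2| ≤ C * (N : ℤ) ^ 6 ∧
    (r : Cardinal) ≤ Module.rank ℤ ((cur p.1 p.2).toAffine).Point}

/-- GEN: from `N` to `H` (`N = ⌊(H / (27 C³))^(1/12)⌋`); compare `Helper13/R5/FIN.lean`. -/
def ST_GEN : Prop := ∀ (r : ℕ) (C : ℤ), 1 ≤ C → ∀ e c : ℝ, 0 < e → 0 < c → ∀ N0 : ℕ,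
  (∀ N : ℕ, N0 ≤ N → c * (N : ℝ) ^ e ≤ ((RS r C N).ncard : ℝ)) →
  ∃ c' : ℝ, 0 < c' ∧ ∃ H₀ : ℝ, ∀ H : ℝ, H₀ ≤ H → c' * H ^ (e / 12) ≤ (NR r H : ℝ)

open Classical in
/-- CNT (counting).  At least half of the box has no prime `q > 1000` with `q ∣ A`, `q ∣ B`,
`q ≤ C' N`; there `(A, B)` is reduced (a prime with `q⁴ ∣ A`, `q⁶ ∣ B` is `≤ C N` because
`(A, B) ≠ (0, 0)`).  Each pair is taken at most `K N^δ` times. -/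
def ST_CNT : Prop := ∀ (r : ℕ) (b : Fin 3 → ℤ) (A B : (Fin 3 → ℤ) → ℤ) (C : ℤ) (K δ : ℝ),
  1 ≤ C → 0 < K →
  (∀ N : ℕ, 1 ≤ N → ∀ t ∈ Box N, |A (yy b t)| ≤ C * (N : ℤ) ^ 4 ∧
    |B (yy b t)| ≤ C * (N : ℤ) ^ 6) →
  (∀ t : Fin 3 → ℕ, 4 * A (yy b t) ^ 3 + 27 * B (yy b t) ^ 2 ≠ 0 ∧
    (∀ q : ℕ, q.Prime → q ≤ 1000 → ¬ ((q : ℤ) ∣ A (yy b t) ∧ (q : ℤ) ∣ B (yy b t))) ∧
    (r : Cardinal) ≤ Module.rank ℤ ((cur (A (yy b t)) (B (yy b t))).toAffine).Point) →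
  (∀ C' : ℕ, ∃ N0 : ℕ, ∀ N : ℕ, N0 ≤ N →
    2 * ((Box N).filter (fun t => ∃ q : ℕ, q.Prime ∧ 1000 < q ∧ q ≤ C' * N ∧
      (q : ℤ) ∣ A (yy b t) ∧ (q : ℤ) ∣ B (yy b t))).card ≤ N ^ 3) →
  (∀ N : ℕ, 1 ≤ N → ∀ p : ℤ × ℤ,
    (((Box N).filter (fun t => A (yy b t) = p.1 ∧ B (yy b t) = p.2)).card : ℝ) ≤
      K * (N : ℝ) ^ δ) →
  ∃ N0 : ℕ, ∀ N : ℕ, N0 ≤ N → 1 / (2 * K) * (N : ℝ) ^ (3 - δ) ≤ ((RS r C N).ncard : ℝ)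

open Classical in
/-- SIEVE: sum over the primes (`2 · 50 · 4 / 1000 < 1`; compare `Helper34/R5/SIEVE.lean`). -/
def ST_SIEVE : Prop := ∀ (A B : (Fin 3 → ℕ) → ℤ),
  (∀ N q : ℕ, q.Prime → 1000 < q →
    ((Box N).filter (fun t => (q : ℤ) ∣ A t ∧ (q : ℤ) ∣ B t)).card ≤ 50 * (N / q + 1) ^ 2 * N) →
  ∀ C : ℕ, ∃ N0 : ℕ, ∀ N : ℕ, N0 ≤ N →
    2 * ((Box N).filter (fun t => ∃ q : ℕ, q.Prime ∧ 1000 < q ∧ q ≤ C * N ∧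
      (q : ℤ) ∣ A t ∧ (q : ℤ) ∣ B t)).card ≤ N ^ 3

/-! ## Family K (rank six) -/

def kA (u v w : ℤ) : ℤ :=
  -3 * u ^ 4 + 6 * u ^ 2 * v ^ 2 - 22122 * u ^ 2 * w ^ 2 - 3 * v ^ 4 + 1062 * v ^ 2 * w ^ 2 -
    139347 * w ^ 4
def kB (u v w : ℤ) : ℤ :=
  -2 * u ^ 6 + 6 * u ^ 4 * v ^ 2 + 41382 * u ^ 4 * w ^ 2 - 6 * u ^ 2 * v ^ 4 +
    6012 * u ^ 2 * v ^ 2 * w ^ 2 + 6706746 * u ^ 2 * w ^ 4 + 2 * v ^ 6 - 738 * v ^ 4 * w ^ 2 -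
    9666 * v ^ 2 * w ^ 4 + 12154914 * w ^ 6
def kb : Fin 3 → ℤ := ![3, 8, 2]
def kAy (y : Fin 3 → ℤ) : ℤ := kA (y 0) (y 1) (y 2)
def kBy (y : Fin 3 → ℤ) : ℤ := kB (y 0) (y 1) (y 2)

/-- CERTK.  At `(3, 8, 2)`: `A = -2763147`, `B = 1749288710`, coprime.  Points `(X, Y)`:
`P1: X = -411 w² + 83 u² + 54 u v + 7 v²`,
`    Y = 6804 w² u + 1458 w² v - 756 u³ - 738 u² v - 216 u v² - 18 v³`
`P2: X = 93 w² + 27 u² - 10 u v - v²`, `Y = 1260 w² u + 450 w² v - 140 u³ + 78 u² v - 2 v³`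
`P3: X = 1533 w² + 432 w u + 216 w v + 11 u² + 18 u v + 7 v²`,
`    Y = 58320 w³ + 25596 w² u + 12798 w² v + 2160 w u² + 2808 w u v + 864 w v² + 36 u³ +
     90 u² v + 72 u v² + 18 v³`
`P4: X = 453 w² - 48 w u + 24 w v + 3 u² + 2 u v - v²`,
`    Y = 6480 w³ - 1764 w² u + 882 w² v - 144 w u² + 72 w u v + 4 u³ + 6 u² v - 2 v³`
`P5: X = -87 w² + 144 w u + 18 w v - u² + v²`,
`    Y = 4860 w³ - 1728 w² u - 216 w² v + 36 w u² - 216 w u v - 36 w v²`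
`P6: X = 318 w² + 2 u² - 2 v²`, `Y = 216 w u v`.
ST_RANK (Helper97.RK.Stmts, proved in Helper16.RK) with `p = 17` (no root), and the characters
`(q, e)`: `(5, 0): (-,+,+,+,+,-)`, `(11, 9): (-,+,+,-,+,+)`, `(13, 0): (-,+,+,-,+,-)`,
`(13, 6): (+,-,+,-,-,+)`, `(19, 17): (-,+,-,-,+,+)`, `(23, 7): (+,-,-,+,+,-)` (nonsingular).
Compare `Helper16/R5/CERT.lean`. -/
def ST_CERTK : Prop := ∀ y : Fin 3 → ℤ, Cong kb y →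
  4 * kAy y ^ 3 + 27 * kBy y ^ 2 ≠ 0 ∧
  (∀ q : ℕ, q.Prime → q ≤ 1000 → ¬ ((q : ℤ) ∣ kAy y ∧ (q : ℤ) ∣ kBy y)) ∧
  (6 : Cardinal) ≤ Module.rank ℤ ((cur (kAy y) (kBy y)).toAffine).Point

def ST_BNDK : Prop := ∃ C : ℤ, 1 ≤ C ∧ ∀ N : ℕ, 1 ≤ N → ∀ t ∈ Box N,
  (∀ i, 0 < yy kb t i ∧ yy kb t i ≤ C * (N : ℤ)) ∧
  |kAy (yy kb t)| ≤ C * (N : ℤ) ^ 4 ∧ |kBy (yy kb t)| ≤ C * (N : ℤ) ^ 6

open Classical in
/-- SVK.  With `U = u²`, `V = v²`, `W = w²` and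
`KS = 86 U³W - 64 U²VW + 113774 U²W² - 22 UV²W - 7348 UVW² + 2547762 UW³ - 262 V²W² + 65316 VW³ +
13906314 W⁴`, `KT = -129 U²W - 33 UVW - 11910 UW² - 393 VW² + 92079 W³`:
`KS A + KT B = -7558272 U⁴W² - 3894749568 U³W³ - 149892291072 U²W⁴ - 189873030528 UW⁵ -
818590810752 W⁶`.
For a prime `q > 1000`: either `q ∣ w`, and then `u = ± v` modulo `q` (`A = -3 (U - V)²`), at most
`2 (N/q + 1)² N`; or, given `w`, at most 4 values of `U`, 8 of `u`, and (`A` is quadratic in `V`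
with leading coefficient `-3`) at most 4 of `v`: `32 (N/q + 1)² N`. -/
def ST_SVK : Prop := ∀ N q : ℕ, q.Prime → 1000 < q →
  ((Box N).filter (fun t => (q : ℤ) ∣ kAy (yy kb t) ∧ (q : ℤ) ∣ kBy (yy kb t))).card ≤
    50 * (N / q + 1) ^ 2 * N

/-- DIVK: the node.  `4 A³ + 27 B² = W · KD`, `KD = -6858432 U⁵ + 22429872 U⁴V + 27879526080 U⁴W -
26174016 U³V² + 52595915328 U³VW - 28540692641664 U³W² + 12527136 U²V³ - 23981137344 U²V²W +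
8850919800096 U²VW² + 422606168740224 U²W³ - 1959552 UV⁴ + 2320809408 UV³W - 817015190976 UV²W² +
80413638677568 UVW³ - 752594432587200 UW⁴ + 34992 V⁵ - 41990400 V⁴W + 17144050464 V³W² -
3066848225856 V²W³ + 241113293665200 VW⁴ - 6834097425960000 W⁵`. -/
def ST_DIVK : Prop := ∀ u v w : ℤ, w ^ 2 ∣ 4 * kA u v w ^ 3 + 27 * kB u v w ^ 2

/-- INJK.  `A - A' = (U - U') α₁ + (V - V') α₂`, `B - B' = (U - U') β₁ + (V - V') β₂` and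
`α₁ β₂ - α₂ β₁ ≡ -411800249376 ≢ 0` modulo `13`.  So `U = U'`, `V = V'`. -/
def ST_INJK : Prop := ∀ y y' : Fin 3 → ℤ, Cong kb y → Cong kb y' → (∀ i, 0 < y i) →
  (∀ i, 0 < y' i) → y 2 = y' 2 → kAy y = kAy y' → kBy y = kBy y' → y = y'

open Classical in
/-- MULTK (from DIVK, INJK, CERTK, BNDK and
`Pool.Agent.Helper15.Hall.card_divisors_le_uniform`). -/
def ST_MULTK : Prop := ∀ ε : ℝ, 0 < ε → ∃ K : ℝ, 0 < K ∧ ∀ N : ℕ, 1 ≤ N → ∀ p : ℤ × ℤ,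
  (((Box N).filter (fun t => kAy (yy kb t) = p.1 ∧ kBy (yy kb t) = p.2)).card : ℝ) ≤
    K * (N : ℝ) ^ ε

/-! ## Family S (rank seven) -/

section
variable {R : Type*} [CommRing R]

def FA (a b c : R) : R :=
  541 * (a ^ 4 + b ^ 4 + c ^ 4) - 493 * (a ^ 2 * b ^ 2 + a ^ 2 * c ^ 2 + b ^ 2 * c ^ 2)
def FB (a b c : R) : R :=
  22678 * (a ^ 6 + b ^ 6 + c ^ 6) - 12291 * (a ^ 4 * b ^ 2 + a ^ 4 * c ^ 2 + b ^ 4 * a ^ 2 +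
    b ^ 4 * c ^ 2 + c ^ 4 * a ^ 2 + c ^ 4 * b ^ 2) + 2256 * a ^ 2 * b ^ 2 * c ^ 2

/-- the Jacobian of `(FA, FB)` with respect to `(a, b)` -/
def JJ (a b c : R) : R :=
  (2164 * a ^ 3 - 986 * a * (b ^ 2 + c ^ 2)) *
    (136068 * b ^ 5 - 49164 * b ^ 3 * (a ^ 2 + c ^ 2) - 24582 * b * (a ^ 4 + c ^ 4) +
      4512 * b * a ^ 2 * c ^ 2) -
  (2164 * b ^ 3 - 986 * b * (a ^ 2 + c ^ 2)) *
    (136068 * a ^ 5 - 49164 * a ^ 3 * (b ^ 2 + c ^ 2) - 24582 * a * (b ^ 4 + c ^ 4) +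
      4512 * a * b ^ 2 * c ^ 2)
end

def sb : Fin 3 → ℤ := ![4, 7, 11]
def sA (y : Fin 3 → ℤ) : ℤ := (-(FA (y 0) (y 1) (y 2))) / 3
def sB (y : Fin 3 → ℤ) : ℤ := (FB (y 0) (y 1) (y 2)) / 27

/-- CERTS.  At `(4, 7, 11)`: `A = -1698087`, `B = 995393450`, coprime.  Points `(X, Y)`:
`P1: 3 X = 269 a² + 504 a c - 46 b² + 269 c²`,
`    Y = 840 a³ + 2394 a² c - 210 a b² + 2394 a c² - 210 b² c + 840 c³`
`P2: 3 X = 59 a² + 105 a b + 63 a c + 59 b² + 63 b c - 25 c²`,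
`    Y = 70 a³ + 245 a² b + 147 a² c + 245 a b² + 252 a b c - 7 a c² + 70 b³ + 147 b² c -
     7 b c² - 42 c³`
`P3: 3 X = 29 a² - 31 b² - 24 b c + 14 c²`,
`    Y = 10 a² b - 40 a² c - 40 b³ + 14 b² c + 46 b c² + 10 c³`
`P4: 3 X = -31 a² - 24 a b + 14 b² + 29 c²`,
`    Y = 40 a³ - 14 a² b - 46 a b² - 10 a c² - 10 b³ + 40 b c²`
`P5: 3 X = 17 a² + 17 b² - 46 c²`, `Y = 42 a² c - 42 b² c`
`P6: 3 X = -a² - 27 a b + 45 a c + 35 b² - 27 b c - c²`,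
`    Y = 30 a³ + 27 a² b - 45 a² c - 57 a b² + 72 a b c - 45 a c² + 18 b³ - 57 b² c + 27 b c² +
     30 c³`
`P7: 3 X = -46 a² + 17 b² + 17 c²`, `Y = 42 a b² - 42 a c²`.
(The right sides of `3 X` are divisible by 3.)  ST_RANK with `p = 13` (no root) and the characters
`(7, 6): (-,-,+,+,-,+,-)`, `(11, 6): (-,+,+,-,+,+,-)`, `(17, 10): (-,-,-,+,+,-,-)`,
`(17, 11): (-,-,-,-,+,+,-)`, `(19, 11): (+,-,+,-,-,-,+)`, `(23, 18): (+,+,+,+,+,+,-)`,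
`(29, 11): (+,-,-,-,-,-,-)` (nonsingular). -/
def ST_CERTS : Prop := ∀ y : Fin 3 → ℤ, Cong sb y →
  3 * sA y = -(FA (y 0) (y 1) (y 2)) ∧ 27 * sB y = FB (y 0) (y 1) (y 2) ∧
  4 * sA y ^ 3 + 27 * sB y ^ 2 ≠ 0 ∧
  (∀ q : ℕ, q.Prime → q ≤ 1000 → ¬ ((q : ℤ) ∣ sA y ∧ (q : ℤ) ∣ sB y)) ∧
  (7 : Cardinal) ≤ Module.rank ℤ ((cur (sA y) (sB y)).toAffine).Point

def ST_BNDS : Prop := ∃ C : ℤ, 1 ≤ C ∧ ∀ N : ℕ, 1 ≤ N → ∀ t ∈ Box N,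
  (∀ i, 0 < yy sb t i ∧ yy sb t i ≤ C * (N : ℤ)) ∧
  |sA (yy sb t)| ≤ C * (N : ℤ) ^ 4 ∧ |sB (yy sb t)| ≤ C * (N : ℤ) ^ 6

open Classical in
/-- SVS (uses CERTS only for the two divisibilities).  With `U = a²`, `V = b²`, `W = c²` and
`SS = 3884601382475 U⁴ + 54054791200 U³V - 9163980005664 U³W - 2880129811900 U²V² +
753761743904 U²VW + 13962790678250 U²W² + 4023076202168 UV²W + 753761743904 UVW² -
9163980005664 UW³ - 2880129811900 V²W² + 54054791200 VW³ + 3884601382475 W⁴`,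
`ST = -26662973825 U³ + 68707568050 U²V - 7912363567 U²W - 95973376196 UVW - 7912363567 UW² +
68707568050 VW² - 26662973825 W³`:
`SS FA + ST FB = 1496906427515625 U⁶ - 6724543634313750 U⁵W + 14418810138557223 U⁴W² -
17813906290108404 U³W³ + 14418810138557223 U²W⁴ - 6724543634313750 UW⁵ + 1496906427515625 W⁶`
(leading coefficient: primes 3, 5, 7, 17).  Given `c` at most 12 values of `a` modulo `q`, then at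
most 4 of `b` (`FA` is quadratic in `V`, leading coefficient 541). -/
def ST_SVS : Prop := ∀ N q : ℕ, q.Prime → 1000 < q →
  ((Box N).filter (fun t => (q : ℤ) ∣ sA (yy sb t) ∧ (q : ℤ) ∣ sB (yy sb t))).card ≤
    50 * (N / q + 1) ^ 2 * N

/-- HEN: Hensel's lemma for two equations in a commutative ring.  Step: with `RA = FA a' b' c - α`,
`RB = FB a' b' c - β` (divisible by `p^m`) add `(-d (J22 RA - J12 RB), -d (-J21 RA + J11 RB))`. -/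
def ST_HEN : Prop := ∀ (R : Type) [CommRing R] (a b c α β p d : R), p ∣ FA a b c - α →
  p ∣ FB a b c - β → p ∣ d * JJ a b c - 1 → ∀ m : ℕ, 1 ≤ m → ∃ a' b' : R, p ∣ a' - a ∧
    p ∣ b' - b ∧ p ^ m ∣ FA a' b' c - α ∧ p ^ m ∣ FB a' b' c - β

/-- the residues modulo 13 of the analytic curve: `a = pa(t)`, `b = pb(t)`, `c = 11 + t` -/
def da : Fin 20 → ℤ := ![4, 8, 1, 3, 10, 10, 3, 0, 8, 4, 9, 0, 3, 1, 9, 6, 6, 8, 3, 3]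
def db : Fin 20 → ℤ := ![7, 10, 9, 7, 12, 11, 10, 10, 11, 11, 2, 5, 2, 5, 5, 1, 8, 5, 11, 5]
noncomputable def pa : ℤ[X] := ∑ i : Fin 20, C (da i) * X ^ (i : ℕ)
noncomputable def pb : ℤ[X] := ∑ i : Fin 20, C (db i) * X ^ (i : ℕ)

/-- `P` and `Q` agree modulo `(13, X^20)` -/
def Eq20 (P Q : ℤ[X]) : Prop := ∃ g h : ℤ[X], P - Q = 13 * g + X ^ 20 * h

/-- SER.  (`Eq20` is a congruence relation, equivalent to: the coefficients of `X^k`, `k < 20`, agree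
modulo 13.)  Last part: the constant coefficient of `JJ` is a unit modulo 13, the rest is
nilpotent. -/
def ST_SER : Prop := Eq20 (FA pa pb (11 + X)) (C (FA (4 : ℤ) 7 11)) ∧
  Eq20 (FB pa pb (11 + X)) (C (FB (4 : ℤ) 7 11)) ∧
  ∃ d : ℤ[X], Eq20 (d * JJ pa pb (11 + X)) 1

/-- the 20 monomials of degree `≤ 3` -/
def mo : Fin 20 → ℕ × ℕ × ℕ :=
  ![(0, 0, 0), (1, 0, 0), (0, 1, 0), (0, 0, 1), (2, 0, 0), (1, 1, 0), (1, 0, 1), (0, 2, 0),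
    (0, 1, 1), (0, 0, 2), (3, 0, 0), (2, 1, 0), (2, 0, 1), (1, 2, 0), (1, 1, 1), (1, 0, 2), (0,
    3, 0), (0, 2, 1), (0, 1, 2), (0, 0, 3)]

/-- an echelon basis (degrees `0; 1, 1, 1; 2, .., 2; 3, .., 3`) -/
def cf : Fin 20 → Fin 20 → ℤ := ![
    ![1, 0, 0, 0, 0, 0, 0, 0, 0, 0, 0, 0, 0, 0, 0, 0, 0, 0, 0, 0],
    ![0, 5, 0, 0, 0, 0, 0, 0, 0, 0, 0, 0, 0, 0, 0, 0, 0, 0, 0, 0],
    ![0, 12, 6, 0, 0, 0, 0, 0, 0, 0, 0, 0, 0, 0, 0, 0, 0, 0, 0, 0],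
    ![0, 5, 11, 6, 0, 0, 0, 0, 0, 0, 0, 0, 0, 0, 0, 0, 0, 0, 0, 0],
    ![0, 7, 11, 3, 2, 0, 0, 0, 0, 0, 0, 0, 0, 0, 0, 0, 0, 0, 0, 0],
    ![0, 8, 8, 12, 3, 7, 0, 0, 0, 0, 0, 0, 0, 0, 0, 0, 0, 0, 0, 0],
    ![0, 7, 0, 9, 1, 6, 0, 11, 0, 0, 0, 0, 0, 0, 0, 0, 0, 0, 0, 0],
    ![0, 4, 3, 3, 1, 7, 1, 0, 0, 0, 0, 0, 0, 0, 0, 0, 0, 0, 0, 0],
    ![0, 11, 2, 9, 5, 4, 9, 9, 1, 0, 0, 0, 0, 0, 0, 0, 0, 0, 0, 0],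
    ![0, 11, 2, 9, 4, 11, 10, 2, 11, 5, 0, 0, 0, 0, 0, 0, 0, 0, 0, 0],
    ![0, 10, 7, 6, 9, 0, 3, 9, 8, 11, 9, 0, 0, 0, 0, 0, 0, 0, 0, 0],
    ![0, 4, 1, 10, 7, 0, 12, 1, 1, 9, 4, 0, 1, 0, 0, 0, 0, 0, 0, 0],
    ![0, 4, 4, 6, 1, 12, 4, 10, 1, 0, 7, 8, 0, 0, 0, 0, 0, 0, 0, 0],
    ![0, 8, 5, 3, 2, 1, 12, 10, 5, 10, 9, 6, 2, 4, 0, 0, 0, 0, 0, 0],
    ![0, 8, 0, 1, 5, 6, 8, 3, 0, 11, 9, 12, 12, 10, 2, 0, 0, 0, 0, 0],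
    ![0, 2, 9, 11, 4, 4, 11, 8, 6, 5, 3, 4, 6, 10, 12, 8, 0, 0, 0, 0],
    ![0, 8, 7, 9, 6, 4, 10, 8, 4, 8, 8, 3, 4, 5, 9, 12, 6, 0, 0, 0],
    ![0, 1, 1, 8, 10, 0, 0, 10, 7, 9, 8, 2, 6, 10, 2, 1, 5, 11, 0, 0],
    ![0, 12, 3, 4, 8, 11, 2, 0, 5, 11, 2, 12, 0, 7, 3, 7, 0, 3, 6, 0],
    ![0, 12, 1, 11, 4, 6, 9, 8, 8, 7, 12, 0, 2, 0, 10, 4, 1, 5, 8, 12]]

def ff {R : Type*} [CommRing R] (j : Fin 20) (a b c : R) : R :=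
  ∑ i : Fin 20, (cf j i : R) *
    ((a - 4) ^ (mo i).1 * (b - 7) ^ (mo i).2.1 * (c - 11) ^ (mo i).2.2)

/-- EXP: along the curve `ff j = X^j + ...` modulo `(13, X^20)`. -/
def ST_EXP : Prop := ∀ U V : ℤ[X], Eq20 U pa → Eq20 V pb → ∀ j : Fin 20,
  (∀ k : ℕ, k < (j : ℕ) → (13 : ℤ) ∣ (ff j U V (11 + X)).coeff k) ∧
  ¬ (13 : ℤ) ∣ (ff j U V (11 + X)).coeff j

/-- DETC.  With `n = ∏ (X - τ i)` (`≡ X^s` modulo 13) write `F j = R j + n Q j`, `deg R j < s`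
(`%ₘ`); `coeff k (R j) ≡ coeff k (F j)` modulo 13 for `k < s`; the matrix is (Vandermonde) times
(coefficients of `R`), the last one is triangular modulo 13 with units on the diagonal. -/
def ST_DETC : Prop := ∀ (s : ℕ) (τ : Fin s → ℤ) (F : Fin s → ℤ[X]), (∀ i, (13 : ℤ) ∣ τ i) →
  (∀ j : Fin s, (∀ k : ℕ, k < (j : ℕ) → (13 : ℤ) ∣ (F j).coeff k) ∧
    ¬ (13 : ℤ) ∣ (F j).coeff j) →
  ∃ W : ℤ, ¬ (13 : ℤ) ∣ W ∧ Matrix.det (Matrix.of fun i j => (F j).eval (τ i)) =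
    W * ∏ i : Fin s, ∏ j ∈ Finset.Ioi i, (τ j - τ i)

/-- LIFT (from HEN, SER): HEN in `ℤ[X] ⧸ (n)`, `n = ∏ (X - τ i) ≡ X^20` modulo 13, and evaluation
at the `τ i`. -/
def ST_LIFT : Prop := ∀ (τ : Fin 20 → ℤ), (∀ i, (13 : ℤ) ∣ τ i) → ∀ α β : ℤ,
  (13 : ℤ) ∣ α - FA (4 : ℤ) 7 11 → (13 : ℤ) ∣ β - FB (4 : ℤ) 7 11 → ∀ m : ℕ, 1 ≤ m →
  ∃ U V : ℤ[X], Eq20 U pa ∧ Eq20 V pb ∧ ∀ i : Fin 20,
    (13 : ℤ) ^ m ∣ FA (U.eval (τ i)) (V.eval (τ i)) (11 + τ i) - α ∧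
    (13 : ℤ) ^ m ∣ FB (U.eval (τ i)) (V.eval (τ i)) (11 + τ i) - β

/-- INJS: `FA - FA' = (a - a') α₁ + (b - b') α₂` etc., the determinant is `≡ JJ 4 7 11 ≢ 0`
modulo 13. -/
def ST_INJS : Prop := ∀ (m : ℕ) (a b a' b' c : ℤ), (13 : ℤ) ∣ a - 4 → (13 : ℤ) ∣ b - 7 →
  (13 : ℤ) ∣ a' - 4 → (13 : ℤ) ∣ b' - 7 → (13 : ℤ) ∣ c - 11 →
  (13 : ℤ) ^ m ∣ FA a b c - FA a' b' c → (13 : ℤ) ^ m ∣ FB a b c - FB a' b' c →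
  (13 : ℤ) ^ m ∣ a - a' ∧ (13 : ℤ) ^ m ∣ b - b'

/-- the matrix of 20 points -/
def MQ (Q : Fin 20 → Fin 3 → ℤ) : Matrix (Fin 20) (Fin 20) ℤ :=
  Matrix.of fun i j => ff j (Q i 0) (Q i 1) (Q i 2)

/-- DETS (from LIFT, INJS, EXP, DETC).  `τ i = Q i 2 - 11`; for every `m` the determinant is
congruent modulo `13^m` to the determinant of `(ff j U V (11 + X)).eval (τ i)`, i.e. to
`W · Vandermonde`, `13 ∤ W`; take `m` larger than the exponent of 13 in the Vandermonde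
(resp. `m = 190 k`). -/
def ST_DETS : Prop := ∀ Q : Fin 20 → Fin 3 → ℤ,
  (∀ i, (13 : ℤ) ∣ Q i 0 - 4 ∧ (13 : ℤ) ∣ Q i 1 - 7 ∧ (13 : ℤ) ∣ Q i 2 - 11) →
  (∀ i j, FA (Q i 0) (Q i 1) (Q i 2) = FA (Q j 0) (Q j 1) (Q j 2) ∧
    FB (Q i 0) (Q i 1) (Q i 2) = FB (Q j 0) (Q j 1) (Q j 2)) →
  (Function.Injective fun i => Q i 2) →
  (MQ Q).det ≠ 0 ∧ ∀ k : ℕ, (∀ i j, (13 : ℤ) ^ k ∣ Q i 2 - Q j 2) →
    (13 : ℤ) ^ (190 * k) ∣ (MQ Q).det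

/-- SIZE: `|det| ≤ 20! ∏_j max_i |ff j|`, and the degrees add up to 45. -/
def ST_SIZE : Prop := ∀ C : ℤ, 1 ≤ C → ∃ K : ℤ, 1 ≤ K ∧ ∀ N : ℕ, 1 ≤ N →
  ∀ Q : Fin 20 → Fin 3 → ℤ, (∀ i l, |Q i l| ≤ C * (N : ℤ)) → |(MQ Q).det| ≤ K * (N : ℤ) ^ 45

open Classical in
/-- MULTS (from DETS, SIZE, INJS, CERTS (first two parts), BNDS).  Let `k` be minimal with
`13^(190 k) > K N^45`; a class of `t 2` modulo `13^k` has at most 19 points (two points with the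
same `c` are equal by INJS for all `m`), so at most `19 · 13^k ≤ K' N^(9/38)` points. -/
def ST_MULTS : Prop := ∃ K : ℝ, 0 < K ∧ ∀ N : ℕ, 1 ≤ N → ∀ p : ℤ × ℤ,
  (((Box N).filter (fun t => sA (yy sb t) = p.1 ∧ sB (yy sb t) = p.2)).card : ℝ) ≤
    K * (N : ℝ) ^ ((9 : ℝ) / 38)

/-! ## The theorem -/

/-- FIN (from GEN, CNT, SIEVE, CERTK, BNDK, SVK, MULTK, CERTS, BNDS, SVS, MULTS). -/
def ST_FIN : Prop :=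
  (∀ ε : ℝ, 0 < ε → ∃ H₀ : ℝ, ∀ H : ℝ, H₀ ≤ H → H ^ ((1 : ℝ) / 4 - ε) ≤ (NR 6 H : ℝ)) ∧
  (∃ c : ℝ, 0 < c ∧ ∃ H₀ : ℝ, ∀ H : ℝ, H₀ ≤ H → c * H ^ ((35 : ℝ) / 152) ≤ (NR 7 H : ℝ))

end Pool.Helper17.RS
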