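import Pool.Agent.Helper17.RS.Sheet

set_option autoImplicit false

namespace Pool.Helper17.RS

theorem st_DIVK : ST_DIVK := by
  intro u v w
  refine ⟨-6858432 * u ^ 10 + 22429872 * u ^ 8 * v ^ 2 + 27879526080 * u ^ 8 * w ^ 2 -
    26174016 * u ^ 6 * v ^ 4 + 52595915328 * u ^ 6 * v ^ 2 * w ^ 2 -
    28540692641664 * u ^ 6 * w ^ 4 + 12527136 * u ^ 4 * v ^ 6 -
    23981137344 * u ^ 4 * v ^ 4 * w ^ 2 + 8850919800096 * u ^ 4 * v ^ 2 * w ^ 4 +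
    422606168740224 * u ^ 4 * w ^ 6 - 1959552 * u ^ 2 * v ^ 8 +
    2320809408 * u ^ 2 * v ^ 6 * w ^ 2 - 817015190976 * u ^ 2 * v ^ 4 * w ^ 4 +
    80413638677568 * u ^ 2 * v ^ 2 * w ^ 6 - 752594432587200 * u ^ 2 * w ^ 8 +
    34992 * v ^ 10 - 41990400 * v ^ 8 * w ^ 2 + 17144050464 * v ^ 6 * w ^ 4 -
    3066848225856 * v ^ 4 * w ^ 6 + 241113293665200 * v ^ 2 * w ^ 8 -
    6834097425960000 * w ^ 10, ?_⟩
  unfold kA kB
  ring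

end Pool.Helper17.RS
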