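import Pool.Agent.Helper17.RS.Sheet

set_option autoImplicit false

namespace Pool.Helper17.RS

section
variable {R : Type*} [CommRing R]

/-- first derivatives -/
def j11 (a b c : R) : R := 2164 * a ^ 3 - 986 * a * (b ^ 2 + c ^ 2)
def j12 (a b c : R) : R := 2164 * b ^ 3 - 986 * b * (a ^ 2 + c ^ 2)
def j21 (a b c : R) : R :=
  136068 * a ^ 5 - 49164 * a ^ 3 * (b ^ 2 + c ^ 2) - 24582 * a * (b ^ 4 + c ^ 4) +
      4512 * a * b ^ 2 * c ^ 2
def j22 (a b c : R) : R :=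
  136068 * b ^ 5 - 49164 * b ^ 3 * (a ^ 2 + c ^ 2) - 24582 * b * (a ^ 4 + c ^ 4) +
      4512 * b * a ^ 2 * c ^ 2

theorem JJ_eq (a b c : R) : JJ a b c = j11 a b c * j22 a b c - j12 a b c * j21 a b c := by
  unfold JJ j11 j12 j21 j22
  ring

theorem FA_taylor (a b c h k : R) : ∃ r1 r2 r3 : R,
    FA (a + h) (b + k) c = FA a b c + j11 a b c * h + j12 a b c * k +
      (h ^ 2 * r1 + h * k * r2 + k ^ 2 * r3) := by
  refine ⟨541 * (6 * a ^ 2 + 4 * a * h + h ^ 2) - 493 * (b ^ 2 + 2 * b * k + k ^ 2 + c ^ 2),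
    -493 * 4 * a * b, 541 * (6 * b ^ 2 + 4 * b * k + k ^ 2) - 493 * (a ^ 2 + 2 * a * h + c ^ 2),
    ?_⟩
  unfold FA j11 j12
  ring

theorem FB_taylor (a b c h k : R) : ∃ r1 r2 r3 : R,
    FB (a + h) (b + k) c = FB a b c + j21 a b c * h + j22 a b c * k +
      (h ^ 2 * r1 + h * k * r2 + k ^ 2 * r3) := by
  refine ⟨
    340170 * a ^ 4 + 453560 * a ^ 3 * h - 73746 * a ^ 2 * b ^ 2 - 147492 * a ^ 2 * b * k -
    73746 * a ^ 2 * c ^ 2 + 340170 * a ^ 2 * h ^ 2 - 73746 * a ^ 2 * k ^ 2 - 49164 * a * b ^ 2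
    * h - 98328 * a * b * h * k - 49164 * a * c ^ 2 * h + 136068 * a * h ^ 3 - 49164 * a * h *
    k ^ 2 - 12291 * b ^ 4 - 49164 * b ^ 3 * k + 2256 * b ^ 2 * c ^ 2 - 12291 * b ^ 2 * h ^ 2 -
    73746 * b ^ 2 * k ^ 2 + 4512 * b * c ^ 2 * k - 24582 * b * h ^ 2 * k - 49164 * b * k ^ 3 -
    12291 * c ^ 4 - 12291 * c ^ 2 * h ^ 2 + 2256 * c ^ 2 * k ^ 2 + 22678 * h ^ 4 - 12291 * h ^
    2 * k ^ 2 - 12291 * k ^ 4,
    -98328 * a ^ 3 * b - 49164 * a ^ 3 * k - 98328 * a * b ^ 3 - 147492 * a * b ^ 2 * k + 9024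
    * a * b * c ^ 2 - 98328 * a * b * k ^ 2 + 4512 * a * c ^ 2 * k - 24582 * a * k ^ 3,
    -12291 * a ^ 4 - 73746 * a ^ 2 * b ^ 2 - 49164 * a ^ 2 * b * k + 2256 * a ^ 2 * c ^ 2 -
    12291 * a ^ 2 * k ^ 2 + 340170 * b ^ 4 + 453560 * b ^ 3 * k - 73746 * b ^ 2 * c ^ 2 +
    340170 * b ^ 2 * k ^ 2 - 49164 * b * c ^ 2 * k + 136068 * b * k ^ 3 - 12291 * c ^ 4 - 12291
    * c ^ 2 * k ^ 2 + 22678 * k ^ 4,
    ?_⟩
  unfold FB j21 j22
  ring

theorem hmap_JJ {S : Type*} [CommRing S] (f : R →+* S) (a b c : R) :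
    f (JJ a b c) = JJ (f a) (f b) (f c) := by
  have h1 : f 2164 = 2164 := map_ofNat f 2164
  have h2 : f 986 = 986 := map_ofNat f 986
  have h3 : f 136068 = 136068 := map_ofNat f 136068
  have h4 : f 49164 = 49164 := map_ofNat f 49164
  have h5 : f 24582 = 24582 := map_ofNat f 24582
  have h6 : f 4512 = 4512 := map_ofNat f 4512
  simp only [JJ, map_sub, map_add, map_mul, map_pow, h1, h2, h3, h4, h5, h6]

theorem hmap_FA {S : Type*} [CommRing S] (f : R →+* S) (a b c : R) :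
    f (FA a b c) = FA (f a) (f b) (f c) := by
  have h1 : f 541 = 541 := map_ofNat f 541
  have h2 : f 493 = 493 := map_ofNat f 493
  simp only [FA, map_sub, map_add, map_mul, map_pow, h1, h2]

theorem hmap_FB {S : Type*} [CommRing S] (f : R →+* S) (a b c : R) :
    f (FB a b c) = FB (f a) (f b) (f c) := by
  have h1 : f 22678 = 22678 := map_ofNat f 22678
  have h2 : f 12291 = 12291 := map_ofNat f 12291
  have h3 : f 2256 = 2256 := map_ofNat f 2256
  simp only [FB, map_sub, map_add, map_mul, map_pow, h1, h2, h3]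

theorem JJ_cong (p a b a' b' c : R) (ha : p ∣ a' - a) (hb : p ∣ b' - b) :
    p ∣ JJ a' b' c - JJ a b c := by
  have h1 : (Ideal.Quotient.mk (Ideal.span {p})) a' = Ideal.Quotient.mk (Ideal.span {p}) a :=
    Ideal.Quotient.eq.2 (Ideal.mem_span_singleton.2 ha)
  have h2 : (Ideal.Quotient.mk (Ideal.span {p})) b' = Ideal.Quotient.mk (Ideal.span {p}) b :=
    Ideal.Quotient.eq.2 (Ideal.mem_span_singleton.2 hb)
  refine Ideal.mem_span_singleton.1 (Ideal.Quotient.eq.1 ?_)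
  rw [hmap_JJ, hmap_JJ, h1, h2]

end

theorem st_HEN : ST_HEN := by
  intro R _ a b c α β p d hA hB hd m hm
  induction m, hm using Nat.le_induction with
  | base => exact ⟨a, b, by simp, by simp, by simpa using hA, by simpa using hB⟩
  | succ m hm ih =>
    obtain ⟨a', b', ha, hb, ⟨x, hx⟩, ⟨y, hy⟩⟩ := ih
    obtain ⟨e, he⟩ : p ∣ d * JJ a' b' c - 1 := by
      have h1 : d * JJ a' b' c - 1 = d * (JJ a' b' c - JJ a b c) + (d * JJ a b c - 1) := by ring
      rw [h1]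
      exact dvd_add (Dvd.dvd.mul_left (JJ_cong p a b a' b' c ha hb) d) hd
    obtain ⟨n, rfl⟩ : ∃ n, m = n + 1 := ⟨m - 1, by omega⟩
    set h0 : R := -d * (j22 a' b' c * x - j12 a' b' c * y) with hh0
    set k0 : R := -d * (-j21 a' b' c * x + j11 a' b' c * y) with hk0
    obtain ⟨r1, r2, r3, hr⟩ := FA_taylor a' b' c (p ^ (n + 1) * h0) (p ^ (n + 1) * k0)
    obtain ⟨s1, s2, s3, hs⟩ := FB_taylor a' b' c (p ^ (n + 1) * h0) (p ^ (n + 1) * k0)
    have hJ := JJ_eq a' b' c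
    refine ⟨a' + p ^ (n + 1) * h0, b' + p ^ (n + 1) * k0, ?_, ?_, ?_, ?_⟩
    · have h1 : a' + p ^ (n + 1) * h0 - a = (a' - a) + p * (p ^ n * h0) := by ring
      rw [h1]
      exact dvd_add ha (dvd_mul_right _ _)
    · have h1 : b' + p ^ (n + 1) * k0 - b = (b' - b) + p * (p ^ n * k0) := by ring
      rw [h1]
      exact dvd_add hb (dvd_mul_right _ _)
    · refine ⟨-e * x + p ^ n * (h0 ^ 2 * r1 + h0 * k0 * r2 + k0 ^ 2 * r3), ?_⟩
      have h1 : j11 a' b' c * h0 + j12 a' b' c * k0 = -(d * JJ a' b' c) * x := by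
        rw [hh0, hk0, hJ]; ring
      have h2 : d * JJ a' b' c = 1 + p * e := by linear_combination he
      rw [hr]
      have h3 : FA a' b' c = α + p ^ (n + 1) * x := by linear_combination hx
      rw [h3]
      have h4 : j11 a' b' c * h0 + j12 a' b' c * k0 = -(1 + p * e) * x := by rw [h1, h2]
      linear_combination p ^ (n + 1) * h4
    · refine ⟨-e * y + p ^ n * (h0 ^ 2 * s1 + h0 * k0 * s2 + k0 ^ 2 * s3), ?_⟩
      have h1 : j21 a' b' c * h0 + j22 a' b' c * k0 = -(d * JJ a' b' c) * y := by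
        rw [hh0, hk0, hJ]; ring
      have h2 : d * JJ a' b' c = 1 + p * e := by linear_combination he
      rw [hs]
      have h3 : FB a' b' c = β + p ^ (n + 1) * y := by linear_combination hy
      rw [h3]
      have h4 : j21 a' b' c * h0 + j22 a' b' c * k0 = -(1 + p * e) * y := by rw [h1, h2]
      linear_combination p ^ (n + 1) * h4

end Pool.Helper17.RS
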