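import Pool.Agent.Helper17.RS.FIN
import Pool.Agent.Helper17.RS.DIVK
import Pool.Agent.Helper17.RS.HEN
import Pool.Agent.Helper20.RS.DETC
import Pool.Agent.Helper25.RS.CNT
import Pool.Agent.Helper28.RS.SVK
import Pool.Agent.Helper29.RS.LIFT
import Pool.Agent.Helper34.RS.SIEVE
import Pool.Agent.Helper34.RS.SIZE
import Pool.Agent.Helper46.RS.CERTS
import Pool.Agent.Helper46.RS.BNDS
import Pool.Agent.Helper46.RS.SVS
import Pool.Agent.Helper58.RS.GEN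
import Pool.Agent.Helper72.RS.INJK
import Pool.Agent.Helper72.RS.MULTK
import Pool.Agent.Helper73.RS.MULTS
import Pool.Agent.Helper76.RS.DETS
import Pool.Agent.Helper76.RS.INJS
import Pool.Agent.Helper80.RS.CERTK
import Pool.Agent.Helper4.RS.SER
import Pool.Agent.Helper4.RS.EXP
import Pool.Agent.Helper16.RK.HOM
import Pool.Agent.Helper16.RK.PAD
import Pool.Agent.Helper16.RK.LIN
import Pool.Agent.Helper16.RK.RANK

set_option autoImplicit false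

namespace Pool.Helper17.RS

theorem hrk : Pool.Agent.Helper97.RK.ST_RANK :=
  Pool.Agent.Helper97.RK.st_RANK Pool.Agent.Helper97.RK.st_HOM
    Pool.Agent.Helper97.RK.st_PAD Pool.Agent.Helper97.RK.st_LIN

theorem rank_six : ∀ ε : ℝ, 0 < ε → ∃ H₀ : ℝ, ∀ H : ℝ, H₀ ≤ H →
    H ^ ((1 : ℝ) / 4 - ε) ≤ (NR 6 H : ℝ) :=
  fin_K st_GEN st_CNT st_SIEVE (st_CERTK hrk) st_BNDK st_SVK
    (st_MULTK st_DIVK st_INJK (st_CERTK hrk) st_BNDK)

theorem rank_seven :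
    ∃ c : ℝ, 0 < c ∧ ∃ H₀ : ℝ, ∀ H : ℝ, H₀ ≤ H → c * H ^ ((35 : ℝ) / 152) ≤ (NR 7 H : ℝ) :=
  fin_S st_GEN st_CNT st_SIEVE (st_CERTS hrk) st_BNDS st_SVS
    (st_MULTS (st_DETS (st_LIFT st_HEN Pool.Agent.Helper4.RS.st_SER) st_INJS Pool.Agent.Helper4.RS.st_EXP Pool.Agent.Helper20.RS.st_DETC) st_SIZE st_INJS
      (st_CERTS hrk) st_BNDS)

end Pool.Helper17.RS
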