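import Pool.Agent.Helper17.RS.Sheet

set_option autoImplicit false

namespace Pool.Helper17.RS

open Pool.Agent.Helper97.RK (cur)

theorem fin_K (hGEN : ST_GEN) (hCNT : ST_CNT) (hSV : ST_SIEVE) (hCERTK : ST_CERTK)
    (hBNDK : ST_BNDK) (hSVK : ST_SVK) (hMULTK : ST_MULTK) :
    ∀ ε : ℝ, 0 < ε → ∃ H₀ : ℝ, ∀ H : ℝ, H₀ ≤ H → H ^ ((1 : ℝ) / 4 - ε) ≤ (NR 6 H : ℝ) := by
  intro ε hε
  obtain ⟨C, hC, hB⟩ := hBNDK
  obtain ⟨K, hK, hM⟩ := hMULTK (min ε 1) (lt_min hε one_pos)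
  have hcong : ∀ t : Fin 3 → ℕ, Cong kb (yy kb t) := fun t i => ⟨(t i : ℤ), by simp [yy]⟩
  obtain ⟨N0, hN0⟩ := hCNT 6 kb kAy kBy C K (min ε 1) hC hK
    (fun N hN t ht => (hB N hN t ht).2)
    (fun t => by
      have := hCERTK (yy kb t) (hcong t)
      exact_mod_cast this)
    (hSV (fun t => kAy (yy kb t)) (fun t => kBy (yy kb t)) hSVK) hM
  have he : (0 : ℝ) < 3 - min ε 1 := by
    have := min_le_right ε 1
    linarith
  obtain ⟨c', hc', H₀, hH⟩ := hGEN 6 C hC (3 - min ε 1) (1 / (2 * K)) he (by positivity) N0 hN0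
  -- absorb the constant
  have hgap : (0 : ℝ) < ε - min ε 1 / 12 := by
    have := min_le_left ε 1
    linarith
  refine ⟨max H₀ (max 1 ((1 / c') ^ (1 / (ε - min ε 1 / 12)))), fun H hH' => ?_⟩
  have h1 : H₀ ≤ H := le_trans (le_max_left _ _) hH'
  have h2 : (1 : ℝ) ≤ H := le_trans (le_trans (le_max_left _ _) (le_max_right _ _)) hH'
  have h3 : (1 / c') ^ (1 / (ε - min ε 1 / 12)) ≤ H :=
    le_trans (le_trans (le_max_right _ _) (le_max_right _ _)) hH'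
  have hpos : (0 : ℝ) < H := by linarith
  have h4 : 1 / c' ≤ H ^ (ε - min ε 1 / 12) := by
    have := Real.rpow_le_rpow (by positivity) h3 hgap.le
    rwa [← Real.rpow_mul (by positivity), one_div_mul_cancel hgap.ne', Real.rpow_one] at this
  refine le_trans ?_ (hH H h1)
  have h5 : H ^ ((3 - min ε 1) / 12) = H ^ ((1 : ℝ) / 4 - ε) * H ^ (ε - min ε 1 / 12) := by
    rw [← Real.rpow_add hpos]
    congr 1
    ring
  rw [h5]
  have h6 : (1 : ℝ) ≤ c' * H ^ (ε - min ε 1 / 12) := by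
    have := mul_le_mul_of_nonneg_left h4 hc'.le
    rwa [mul_one_div_cancel hc'.ne'] at this
  have h7 : (0 : ℝ) ≤ H ^ ((1 : ℝ) / 4 - ε) := by positivity
  nlinarith

theorem fin_S (hGEN : ST_GEN) (hCNT : ST_CNT) (hSV : ST_SIEVE) (hCERTS : ST_CERTS)
    (hBNDS : ST_BNDS) (hSVS : ST_SVS) (hMULTS : ST_MULTS) :
    ∃ c : ℝ, 0 < c ∧ ∃ H₀ : ℝ, ∀ H : ℝ, H₀ ≤ H → c * H ^ ((35 : ℝ) / 152) ≤ (NR 7 H : ℝ) := by
  obtain ⟨C, hC, hB⟩ := hBNDS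
  obtain ⟨K, hK, hM⟩ := hMULTS
  have hcong : ∀ t : Fin 3 → ℕ, Cong sb (yy sb t) := fun t i => ⟨(t i : ℤ), by simp [yy]⟩
  obtain ⟨N0, hN0⟩ := hCNT 7 sb sA sB C K (9 / 38) hC hK
    (fun N hN t ht => (hB N hN t ht).2)
    (fun t => by
      have := (hCERTS (yy sb t) (hcong t)).2.2
      exact_mod_cast this)
    (hSV (fun t => sA (yy sb t)) (fun t => sB (yy sb t)) hSVS) hM
  obtain ⟨c', hc', H₀, hH⟩ := hGEN 7 C hC (3 - 9 / 38) (1 / (2 * K)) (by norm_num)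
    (by positivity) N0 hN0
  refine ⟨c', hc', H₀, fun H hH' => ?_⟩
  have := hH H hH'
  have he : ((3 : ℝ) - 9 / 38) / 12 = 35 / 152 := by norm_num
  rwa [he] at this

theorem st_FIN (hGEN : ST_GEN) (hCNT : ST_CNT) (hSV : ST_SIEVE) (hCERTK : ST_CERTK)
    (hBNDK : ST_BNDK) (hSVK : ST_SVK) (hMULTK : ST_MULTK) (hCERTS : ST_CERTS)
    (hBNDS : ST_BNDS) (hSVS : ST_SVS) (hMULTS : ST_MULTS) : ST_FIN :=
  ⟨fin_K hGEN hCNT hSV hCERTK hBNDK hSVK hMULTK,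
    fin_S hGEN hCNT hSV hCERTS hBNDS hSVS hMULTS⟩

end Pool.Helper17.RS
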