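import Pool.Agent.Helper17.RS.Sheet

set_option autoImplicit false

namespace Pool.Helper17.RS

open Pool.Agent.Helper97.RK (cur)

open Classical in
/-- The exponent `1/4 - ε` for a family with three parameters and multiplicities `N ^ ε`. -/
theorem fin_gen (hGEN : ST_GEN) (hCNT : ST_CNT) (hSV : ST_SIEVE) (r : ℕ) (b : Fin 3 → ℤ)
    (A B : (Fin 3 → ℤ) → ℤ)
    (hCERT : ∀ t : Fin 3 → ℕ, 4 * A (yy b t) ^ 3 + 27 * B (yy b t) ^ 2 ≠ 0 ∧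
      (∀ q : ℕ, q.Prime → q ≤ 1000 → ¬ ((q : ℤ) ∣ A (yy b t) ∧ (q : ℤ) ∣ B (yy b t))) ∧
      (r : Cardinal) ≤ Module.rank ℤ ((cur (A (yy b t)) (B (yy b t))).toAffine).Point)
    (hBND : ∃ C : ℤ, 1 ≤ C ∧ ∀ N : ℕ, 1 ≤ N → ∀ t ∈ Box N,
      |A (yy b t)| ≤ C * (N : ℤ) ^ 4 ∧ |B (yy b t)| ≤ C * (N : ℤ) ^ 6)
    (hSVT : ∀ N q : ℕ, q.Prime → 1000 < q →
      ((Box N).filter (fun t => (q : ℤ) ∣ A (yy b t) ∧ (q : ℤ) ∣ B (yy b t))).card ≤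
        50 * (N / q + 1) ^ 2 * N)
    (hMULT : ∀ ε : ℝ, 0 < ε → ∃ K : ℝ, 0 < K ∧ ∀ N : ℕ, 1 ≤ N → ∀ p : ℤ × ℤ,
      (((Box N).filter (fun t => A (yy b t) = p.1 ∧ B (yy b t) = p.2)).card : ℝ) ≤
        K * (N : ℝ) ^ ε) :
    ∀ ε : ℝ, 0 < ε → ∃ H₀ : ℝ, ∀ H : ℝ, H₀ ≤ H → H ^ ((1 : ℝ) / 4 - ε) ≤ (NR r H : ℝ) := by
  intro ε hε
  obtain ⟨C, hC, hB⟩ := hBND
  obtain ⟨K, hK, hM⟩ := hMULT (min ε 1) (lt_min hε one_pos)
  obtain ⟨N0, hN0⟩ := hCNT r b A B C K (min ε 1) hC hK hB hCERT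
    (hSV (fun t => A (yy b fun i => t i)) (fun t => B (yy b fun i => t i)) hSVT) hM
  have he : (0 : ℝ) < 3 - min ε 1 := by
    have := min_le_right ε 1
    linarith
  obtain ⟨c', hc', H₀, hH⟩ := hGEN r C hC (3 - min ε 1) (1 / (2 * K)) he (by positivity) N0 hN0
  have hgap : (0 : ℝ) < ε - min ε 1 / 12 := by
    have := min_le_left ε 1
    linarith
  refine ⟨max H₀ (max 1 ((1 / c') ^ (1 / (ε - min ε 1 / 12)))), fun H hH' => ?_⟩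
  have h1 : H₀ ≤ H := le_trans (le_max_left _ _) hH'
  have h2 : (1 : ℝ) ≤ H := le_trans (le_trans (le_max_left _ _) (le_max_right _ _)) hH'
  have h3 : (1 / c') ^ (1 / (ε - min ε 1 / 12)) ≤ H :=
    le_trans (le_trans (le_max_right _ _) (le_max_right _ _)) hH'
  have hpos : (0 : ℝ) < H := by linarith
  have h4 : 1 / c' ≤ H ^ (ε - min ε 1 / 12) := by
    have := Real.rpow_le_rpow (by positivity) h3 hgap.le
    rwa [← Real.rpow_mul (by positivity), one_div_mul_cancel hgap.ne', Real.rpow_one] at this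
  refine le_trans ?_ (hH H h1)
  have h5 : H ^ ((3 - min ε 1) / 12) = H ^ ((1 : ℝ) / 4 - ε) * H ^ (ε - min ε 1 / 12) := by
    rw [← Real.rpow_add hpos]
    congr 1
    ring
  rw [h5]
  have h6 : (1 : ℝ) ≤ c' * H ^ (ε - min ε 1 / 12) := by
    have := mul_le_mul_of_nonneg_left h4 hc'.le
    rwa [mul_one_div_cancel hc'.ne'] at this
  have h7 : (0 : ℝ) ≤ H ^ ((1 : ℝ) / 4 - ε) := by positivity
  nlinarith

end Pool.Helper17.RS
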