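import Pool.Agent.Helper43.RS.Spec

namespace Pool.Agent.Helper43.RS

/-- classes modulo two of a subgroup of `ℤ^N` -/
lemma GRP_cls (N : ℕ) (P : Submodule ℤ (Fin N → ℤ)) :
    ∃ (r : ℕ) (c : P → (Fin r → ZMod 2)), ∀ v w : P, c v = c w → ∃ u : P, v - w = u + u := by
  obtain ⟨r, b⟩ := Submodule.basisOfPid (Pi.basisFun ℤ (Fin N)) P
  refine ⟨r, fun v i => ((b.repr v i : ℤ) : ZMod 2), fun v w h => ?_⟩
  have h1 : ∀ i, ∃ k : ℤ, b.repr v i - b.repr w i = k + k := by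
    intro i
    have h2 := congrFun h i
    simp only at h2
    rw [eq_comm, ZMod.intCast_eq_intCast_iff_dvd_sub] at h2
    obtain ⟨k, hk⟩ := h2
    exact ⟨k, by rw [hk]; push_cast; ring⟩
  choose k hk using h1
  refine ⟨b.equivFun.symm k, ?_⟩
  apply b.equivFun.injective
  rw [map_add, LinearEquiv.apply_symm_apply, map_sub]
  ext i
  simp only [Module.Basis.equivFun_apply, Pi.sub_apply, Pi.add_apply]
  exact hk i

section

variable {E : Type} [Group E] (A : Subgroup E) (S : Set E)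

/-- finitely many classes -/
def GRP_Cov (U : Set E) : Prop :=
  ∃ T : Finset E, (∀ b ∈ T, b ∈ S) ∧ ∀ s ∈ U, ∃ b ∈ T, ∃ x ∈ A, s = x * b * x⁻¹

variable {A S}

lemma GRP_cov_union {κ : Type} [Finite κ] (U : κ → Set E) (h : ∀ k, GRP_Cov A S (U k)) :
    GRP_Cov A S (⋃ k, U k) := by
  classical
  cases nonempty_fintype κ
  choose T hT1 hT2 using h
  refine ⟨Finset.univ.biUnion T, fun b hb => ?_, fun s hs => ?_⟩
  · obtain ⟨k, -, hk⟩ := Finset.mem_biUnion.1 hb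
    exact hT1 k b hk
  · obtain ⟨k, hk⟩ := Set.mem_iUnion.1 hs
    obtain ⟨b, hb, x, hx, he⟩ := hT2 k s hk
    exact ⟨b, Finset.mem_biUnion.2 ⟨k, Finset.mem_univ _, hb⟩, x, hx, he⟩

lemma GRP_cov_mono {U U' : Set E} (h : U ⊆ U') (h' : GRP_Cov A S U') : GRP_Cov A S U := by
  obtain ⟨T, h1, h2⟩ := h'
  exact ⟨T, h1, fun s hs => h2 s (h hs)⟩

end

theorem GRP_key {E : Type} [Group E] {A A₁ A₂ : Subgroup E} {S : Set E} (h21 : A₂ ≤ A₁)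
    (h1A : A₁ ≤ A) {N : ℕ} (φ : A₁ →* Multiplicative (Fin N → ℤ))
    (hφ : ∀ a, φ a = 1 ↔ (a : E) ∈ A₂)
    (hn1 : ∀ x ∈ (A : Set E) ∪ S, ∀ a ∈ A₁, x * a * x⁻¹ ∈ A₁)
    (hS2 : ∀ s ∈ S, s * s = 1)
    (hfin : ∀ s ∈ S, ∃ T : Finset E, ∀ a ∈ A₂, a * s * (a * s) = 1 →
      ∃ b ∈ T, b ∈ S ∧ ∃ x ∈ A₂, a * s = x * b * x⁻¹) {s1 : E} (hs1 : s1 ∈ S) :
    GRP_Cov A S {s | s ∈ S ∧ s * s1⁻¹ ∈ A₁} := by
  classical
  have hs1i : s1⁻¹ = s1 := inv_eq_of_mul_eq_one_left (hS2 s1 hs1)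
  -- the involution
  set τ : A₁ → A₁ := fun a => ⟨s1 * a * s1⁻¹, hn1 s1 (Or.inr hs1) a a.2⟩ with hτ
  have hτm : ∀ a b, τ (a * b) = τ a * τ b := by
    intro a b
    apply Subtype.ext
    simp only [hτ, Subgroup.coe_mul]
    group
  have hτi : ∀ a, τ a⁻¹ = (τ a)⁻¹ := by
    intro a
    apply Subtype.ext
    simp only [hτ, Subgroup.coe_inv]
    group
  set f : A₁ → (Fin N → ℤ) := fun a => Multiplicative.toAdd (φ a) with hf
  have hfm : ∀ a b, f (a * b) = f a + f b := by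
    intro a b
    simp only [hf, map_mul, toAdd_mul]
  have hfi : ∀ a, f a⁻¹ = -f a := by
    intro a
    simp only [hf, map_inv, toAdd_inv]
  have hf1 : f 1 = 0 := by simp [hf]
  have hf0 : ∀ a, f a = 0 → (a : E) ∈ A₂ := by
    intro a ha
    rw [← hφ]
    exact toAdd_eq_zero.1 ha
  have hτ1 : τ 1 = 1 := by
    apply Subtype.ext
    simp [hτ]
  let P : AddSubgroup (Fin N → ℤ) :=
    { carrier := {v | ∃ a : A₁, f a = v ∧ f (τ a) = -v}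
      add_mem' := by
        rintro v w ⟨a, ha, ha'⟩ ⟨b, hb, hb'⟩
        exact ⟨a * b, by rw [hfm, ha, hb], by rw [hτm, hfm, ha', hb']; abel⟩
      zero_mem' := ⟨1, hf1, by rw [hτ1, hf1, neg_zero]⟩
      neg_mem' := by
        rintro v ⟨a, ha, ha'⟩
        exact ⟨a⁻¹, by rw [hfi, ha], by rw [hτi, hfi, ha']⟩ }
  obtain ⟨r, c, hc⟩ := GRP_cls N (AddSubgroup.toIntSubmodule P)
  -- elements
  have hmem : ∀ s ∈ S, ∀ h : s * s1⁻¹ ∈ A₁, f ⟨s * s1⁻¹, h⟩ ∈ AddSubgroup.toIntSubmodule P := by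
    intro s hs h
    refine ⟨⟨s * s1⁻¹, h⟩, rfl, ?_⟩
    have h1 : (⟨s * s1⁻¹, h⟩ : A₁) * τ ⟨s * s1⁻¹, h⟩ = 1 := by
      apply Subtype.ext
      simp only [hτ, Subgroup.coe_mul, Subgroup.coe_one]
      have h2 := hS2 s hs
      have h3 := hS2 s1 hs1
      calc s * s1⁻¹ * (s1 * (s * s1⁻¹) * s1⁻¹) = (s * s) * (s1 * s1)⁻¹ := by group
        _ = 1 := by rw [h2, h3]; group
    have h4 := congrArg f h1
    rw [hfm, hf1] at h4
    exact eq_neg_of_add_eq_zero_right h4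
  set cl : E → (Fin r → ZMod 2) := fun s =>
    if h : s ∈ S ∧ s * s1⁻¹ ∈ A₁ then c ⟨f ⟨s * s1⁻¹, h.2⟩, hmem s h.1 h.2⟩ else 0 with hcl
  have hcov : ∀ k : Fin r → ZMod 2, GRP_Cov A S {s | (s ∈ S ∧ s * s1⁻¹ ∈ A₁) ∧ cl s = k} := by
    intro k
    by_cases hne : ∃ s, (s ∈ S ∧ s * s1⁻¹ ∈ A₁) ∧ cl s = k
    swap
    · exact ⟨∅, fun b hb => absurd hb (Finset.notMem_empty b), fun s hs => absurd ⟨s, hs⟩ hne⟩
    obtain ⟨t, ⟨ht, ht1⟩, htk⟩ := hne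
    obtain ⟨T, hT⟩ := hfin t ht
    refine ⟨T.filter (· ∈ S), fun b hb => (Finset.mem_filter.1 hb).2, ?_⟩
    rintro s ⟨⟨hs, hs1'⟩, hsk⟩
    have hcc : c ⟨f ⟨s * s1⁻¹, hs1'⟩, hmem s hs hs1'⟩ = c ⟨f ⟨t * s1⁻¹, ht1⟩, hmem t ht ht1⟩ := by
      have h1 : cl s = c ⟨f ⟨s * s1⁻¹, hs1'⟩, hmem s hs hs1'⟩ := dif_pos ⟨hs, hs1'⟩
      have h2 : cl t = c ⟨f ⟨t * s1⁻¹, ht1⟩, hmem t ht ht1⟩ := dif_pos ⟨ht, ht1⟩
      rw [← h1, ← h2, hsk, htk]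
    obtain ⟨⟨w, hw⟩, hu⟩ := hc _ _ hcc
    obtain ⟨x, hx, hx'⟩ : ∃ a : A₁, f a = w ∧ f (τ a) = -w := hw
    have hu' : f ⟨s * s1⁻¹, hs1'⟩ - f ⟨t * s1⁻¹, ht1⟩ = w + w := congrArg Subtype.val hu
    -- conjugate
    have hy : f (x⁻¹ * ⟨s * s1⁻¹, hs1'⟩ * τ x * (⟨t * s1⁻¹, ht1⟩ : A₁)⁻¹) = 0 := by
      rw [hfm, hfm, hfm, hfi, hfi, hx, hx']
      have : f ⟨s * s1⁻¹, hs1'⟩ = w + w + f ⟨t * s1⁻¹, ht1⟩ := by rw [← hu']; abel
      rw [this]; abel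
    have hy2 := hf0 _ hy
    set a : E := ((x⁻¹ * ⟨s * s1⁻¹, hs1'⟩ * τ x * (⟨t * s1⁻¹, ht1⟩ : A₁)⁻¹ : A₁) : E) with ha
    have hae : a * t = (x : E)⁻¹ * s * x := by
      rw [ha]
      simp only [hτ, Subgroup.coe_mul, Subgroup.coe_inv]
      group
    have hsq : a * t * (a * t) = 1 := by
      rw [hae]
      calc (x : E)⁻¹ * s * x * ((x : E)⁻¹ * s * x) = (x : E)⁻¹ * (s * s) * x := by group
        _ = 1 := by rw [hS2 s hs]; group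
    obtain ⟨b, hb, hbS, z, hz, he⟩ := hT a hy2 hsq
    refine ⟨b, Finset.mem_filter.2 ⟨hb, hbS⟩, x * z, A.mul_mem (h1A x.2) (h1A (h21 hz)), ?_⟩
    have h5 : s = x * (a * t) * (x : E)⁻¹ := by rw [hae]; group
    rw [h5, he]
    group
  refine GRP_cov_mono ?_ (GRP_cov_union _ hcov)
  intro s hs
  exact Set.mem_iUnion.2 ⟨cl s, hs, rfl⟩

theorem st_GRP : ST_GRP := by
  classical
  intro E _ A A₁ A₂ S h21 h1A hidx hex hn1 _ hS2 _ hSS hfin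
  obtain ⟨N, φ, hφ⟩ := hex
  rcases S.eq_empty_or_nonempty with hS | ⟨s0, hs0⟩
  · exact ⟨∅, fun b hb => absurd hb (Finset.notMem_empty b), fun s hs => by
      rw [hS] at hs; exact absurd hs (Set.notMem_empty s)⟩
  have hfi : (A₁.subgroupOf A).FiniteIndex := ⟨hidx⟩
  have hfq : Finite (Quotient (QuotientGroup.rightRel (A₁.subgroupOf A))) :=
    Finite.of_equiv _ (QuotientGroup.quotientRightRelEquivQuotientLeftRel (A₁.subgroupOf A)).symm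
  set q : E → Quotient (QuotientGroup.rightRel (A₁.subgroupOf A)) := fun s =>
    if h : s ∈ S then Quotient.mk _ (⟨s * s0⁻¹, hSS s h s0 hs0⟩ : A) else Quotient.mk _ 1 with hq
  have hcov : ∀ k, GRP_Cov A S {s | s ∈ S ∧ q s = k} := by
    intro k
    by_cases hne : ∃ s, s ∈ S ∧ q s = k
    swap
    · exact ⟨∅, fun b hb => absurd hb (Finset.notMem_empty b), fun s hs => absurd ⟨s, hs⟩ hne⟩
    obtain ⟨s1, hs1, hs1k⟩ := hne
    refine GRP_cov_mono ?_ (GRP_key h21 h1A φ hφ hn1 hS2 hfin hs1)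
    rintro s ⟨hs, hsk⟩
    refine ⟨hs, ?_⟩
    have h1 : q s = q s1 := by rw [hsk, hs1k]
    have h2 : q s = Quotient.mk _ (⟨s * s0⁻¹, hSS s hs s0 hs0⟩ : A) := dif_pos hs
    have h3 : q s1 = Quotient.mk _ (⟨s1 * s0⁻¹, hSS s1 hs1 s0 hs0⟩ : A) := dif_pos hs1
    rw [h2, h3, eq_comm] at h1
    have h4 := Quotient.exact h1
    rw [← Quotient.eq_iff_equiv] at h4
    have h5 : QuotientGroup.rightRel (A₁.subgroupOf A)
      (⟨s1 * s0⁻¹, hSS s1 hs1 s0 hs0⟩ : A) (⟨s * s0⁻¹, hSS s hs s0 hs0⟩ : A) := Quotient.exact h4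
    rw [QuotientGroup.rightRel_apply] at h5
    have h6 := Subgroup.mem_subgroupOf.1 h5
    simp only [Subgroup.coe_mul, Subgroup.coe_inv] at h6
    have h7 : s * s0⁻¹ * (s1 * s0⁻¹)⁻¹ = s * s1⁻¹ := by group
    rwa [h7] at h6
  have hall : GRP_Cov A S S := by
    refine GRP_cov_mono ?_ (GRP_cov_union _ hcov)
    intro s hs
    exact Set.mem_iUnion.2 ⟨q s, hs, rfl⟩
  exact hall

end Pool.Agent.Helper43.RS
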